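import Pool.Agent.H35.UE.All
import Pool.Agent.H77.UX.TRG

/-!
# H35-UE-LIT: the upper bound for every nilpotent group, in the form of the hand-in (MP_b39724_nt)
-/

set_option autoImplicit false

open H38.ML.Spec

namespace H35.UE

/-- the upper bound up to `(log B)^δ` for nilpotent `G` whose elements of least index have odd
prime order `p` -/
theorem ub_lit (n : ℕ) (hn : 2 ≤ n) (G : Subgroup (Equiv.Perm (Fin n)))
    (hG : MulAction.IsPretransitive G (Fin n)) (hnil : Group.IsNilpotent G) (p : ℕ)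
    (hp : p.Prime) (hp2 : p ≠ 2)
    (hI : ∀ h : G, h ≠ 1 → ind (h : Equiv.Perm (Fin n)) = indG G → h ^ p = 1) :
    ∃ m : ℕ, 0 < m ∧ ∀ K : IntermediateField ℚ (AlgebraicClosure ℚ), ∀ _ : NumberField K,
      (∃ z : K, IsPrimitiveRoot z m) → ∀ δ : ℝ, 0 < δ → ∃ C : ℝ, 0 < C ∧ ∀ B : ℝ, 3 ≤ B →
        nK K (AlgebraicClosure ℚ) G B ≤
          ((⌊C * (B ^ (1 / (indG G : ℝ)) *
            Real.log B ^ ((betaAll K (AlgebraicClosure ℚ) G : ℝ) - 1 + δ))⌋₊ : ℕ) : ℕ∞) := by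
  obtain ⟨m, hm, h⟩ := ube_all n hn G hG hnil p hp hp2 (fun h hh => hI h hh.1 hh.2)
  refine ⟨m, hm, fun K _ hz δ hδ => ?_⟩
  obtain ⟨C, hC, h1⟩ := h K hz δ hδ
  refine ⟨C, hC, fun B hB => ?_⟩
  obtain ⟨k, hk, hk2⟩ := h1 B hB
  rw [hk]
  exact Nat.cast_le.2 (Nat.le_floor hk2)

/-- the same for every nilpotent `G` no element of least index of which has order two -/
theorem ub_odd (n : ℕ) (hn : 2 ≤ n) (G : Subgroup (Equiv.Perm (Fin n)))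
    (hG : MulAction.IsPretransitive G (Fin n)) (hnil : Group.IsNilpotent G)
    (h2 : ∀ h : G, h ≠ 1 → ind (h : Equiv.Perm (Fin n)) = indG G → h ^ 2 ≠ 1) :
    ∃ m : ℕ, 0 < m ∧ ∀ K : IntermediateField ℚ (AlgebraicClosure ℚ), ∀ _ : NumberField K,
      (∃ z : K, IsPrimitiveRoot z m) → ∀ δ : ℝ, 0 < δ → ∃ C : ℝ, 0 < C ∧ ∀ B : ℝ, 3 ≤ B →
        nK K (AlgebraicClosure ℚ) G B ≤
          ((⌊C * (B ^ (1 / (indG G : ℝ)) *
            Real.log B ^ ((betaAll K (AlgebraicClosure ℚ) G : ℝ) - 1 + δ))⌋₊ : ℕ) : ℕ∞) := by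
  obtain ⟨-, ⟨g₀, hg₀, hi₀⟩, -, -, -⟩ := H38.BG.pidx_pos hn G hG
  refine ub_lit n hn G hG hnil (orderOf g₀) (H38.ML.prime_of_least G g₀ hg₀ hi₀) ?_ ?_
  · intro h
    refine h2 g₀ hg₀ hi₀ ?_
    rw [← h]
    exact pow_orderOf_eq_one g₀
  · intro h hh hi
    rw [← H77.UX.trg hn hG hnil h g₀ hh hg₀ hi hi₀]
    exact pow_orderOf_eq_one h

end H35.UE
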