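import Pool.Agent.H35.UE.Plv
import Pool.Agent.H62.BL.Bl2
import Pool.Agent.H70.UE.Fin

/-!
# H35-UE-ALL: the upper bound up to `(log B)^δ` for every nilpotent group (MP_b39724_nt)

`G` transitive nilpotent of degree `n ≥ 2` all of whose elements of least index have order `p`. No series, no exponent condition, no realisability. `K` any number field with enough roots of unity.
-/

set_option autoImplicit false

open scoped NumberField
open IsDedekindDomain Filter Topology H38.ML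
open scoped Classical

noncomputable section

namespace H35.UE

open H38.ML H63.MA H38.BB H38.BG H57.PC H57.BRA H77.WD H77.PC3 H77.S0T H77.FLD H77.PLF H35.CF H35.UB
  H35.AC H51.AC2

theorem hPL_of {p : ℕ} (hp : p.Prime) (hB : BL2 p) (hG : GP2 p) (P : Type) [Group P] [Finite P]
    (hP : IsPGroup p P) :
    ∃ M : ℕ, 2 ≤ M ∧ ∀ (N : ℕ) (c : CL p N P), 1 ≤ N → H70.UE.PUbe p M c := by
  have hF : Fact p.Prime := ⟨hp⟩
  obtain ⟨M, hM⟩ := pube hp hB hG P hP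
  refine ⟨M + 2, by omega, fun N c hN => ?_⟩
  intro K _ ζ hζ z hz D L η δ hη hδ
  obtain ⟨z', hz'⟩ := prm_pow hp hz (show M ≤ M + 2 by omega)
  exact hM N c hN K ζ hζ z' hz' D L η δ hη hδ

/-- the upper bound from the two black boxes -/
theorem ube_of (n : ℕ) (hn : 2 ≤ n) (G : Subgroup (Equiv.Perm (Fin n)))
    (hG : MulAction.IsPretransitive G (Fin n)) (hnil : Group.IsNilpotent G) (p : ℕ)
    (hp : p.Prime) (hI : ∀ h ∈ H51.PF.Li G, h ^ p = 1) (hB : BL2 p) (hGP : GP2 p) :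
    ∃ m : ℕ, 0 < m ∧ ∀ (K : IntermediateField ℚ (AlgebraicClosure ℚ)) [NumberField K],
      (∃ z : K, IsPrimitiveRoot z m) → ∀ δ : ℝ, 0 < δ → ∃ C : ℝ, 0 < C ∧ ∀ B : ℝ, 3 ≤ B →
        ∃ k : ℕ, Spec.nK K (AlgebraicClosure ℚ) G B = (k : ℕ∞) ∧
          (k : ℝ) ≤ C * (B ^ (1 / (Spec.indG G : ℝ)) *
            Real.log B ^ ((Spec.betaAll K (AlgebraicClosure ℚ) G : ℝ) - 1 + δ)) :=
  H70.UE.ub_all n hn G hG hnil p hp hI fun P _ _ hP => hPL_of hp hB hGP P hP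

/-- THE UPPER BOUND, `p` odd -/
theorem ube_all (n : ℕ) (hn : 2 ≤ n) (G : Subgroup (Equiv.Perm (Fin n)))
    (hG : MulAction.IsPretransitive G (Fin n)) (hnil : Group.IsNilpotent G) (p : ℕ)
    (hp : p.Prime) (hp2 : p ≠ 2) (hI : ∀ h ∈ H51.PF.Li G, h ^ p = 1) :
    ∃ m : ℕ, 0 < m ∧ ∀ (K : IntermediateField ℚ (AlgebraicClosure ℚ)) [NumberField K],
      (∃ z : K, IsPrimitiveRoot z m) → ∀ δ : ℝ, 0 < δ → ∃ C : ℝ, 0 < C ∧ ∀ B : ℝ, 3 ≤ B →
        ∃ k : ℕ, Spec.nK K (AlgebraicClosure ℚ) G B = (k : ℕ∞) ∧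
          (k : ℝ) ≤ C * (B ^ (1 / (Spec.indG G : ℝ)) *
            Real.log B ^ ((Spec.betaAll K (AlgebraicClosure ℚ) G : ℝ) - 1 + δ)) :=
  ube_of n hn G hG hnil p hp hI (H62.BL.bl2 hp hp2) (H62.BL.gp2 hp hp2)

end H35.UE
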