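import Pool.Agent.H35.UE.Pue
import Pool.Agent.H35.AC.Fin
import Pool.Agent.H51.AC2.Defs

/-!
# H35-UE-PLV: the upper bound up to `(log Y)^δ` for all homomorphisms to a finite `p`-group (MP_b39724_nt), from the box lemma and the gap principle
-/

set_option autoImplicit false

open scoped NumberField
open IsDedekindDomain Filter Topology
open scoped Classical

noncomputable section

namespace H35.UE

open H38.ML H63.MA H38.BB H38.BG H57.PC H57.BRA H77.WD H77.PC3 H77.S0T H77.FLD H77.PLF H35.CF H35.UB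
  H35.AC H51.AC2

/-- the upper bound up to `(log Y)^δ` -/
def PUbe (p M : ℕ) {N : ℕ} {P : Type} [Group P] (c : CL p N P) : Prop :=
  ∀ (K : IntermediateField ℚ QBar) [NumberField K] (ζ : K) (_ : IsPrimitiveRoot ζ p) (z : K)
    (_ : IsPrimitiveRoot z (p ^ M)) (D : RD K p ζ) (L : LDs D.toRD0 QBar) (η δ : ℝ), 0 < η → 0 < δ →
    ∃ C : ℝ, 0 < C ∧ ∀ (E : Finset (Pl K)) (Y : ℝ), 1 ≤ Y →
      ∀ Rs : Finset (Gal(QBar/K) →* P), (∀ ψ ∈ Rs, ψ ∈ PU L c E Y) →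
        (Rs.card : ℝ) ≤ C * nr E ^ η * Y * (1 + Real.log Y) ^ ((N : ℝ) - 1 + δ)

theorem pube {p : ℕ} (hp : p.Prime) (hB : BL2 p) (hG : GP2 p) (P : Type) [Group P] [Finite P]
    (hP : IsPGroup p P) : ∃ M : ℕ, ∀ (N : ℕ) (c : CL p N P), 1 ≤ N → PUbe p M c := by
  have hF : Fact p.Prime := ⟨hp⟩
  have hp0 : NeZero p := ⟨hp.ne_zero⟩
  haveI : Fintype P := Fintype.ofFinite P
  have hP' : IsPGroup p (P × Multiplicative (ZMod p)) := by
    obtain ⟨a, ha⟩ := IsPGroup.iff_card.1 hP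
    refine IsPGroup.of_card (n := a + 1) ?_
    rw [Nat.card_prod, ha, Nat.card_congr Multiplicative.toAdd, Nat.card_zmod, pow_succ]
  obtain ⟨κ, hκ⟩ := IsPGroup.iff_card.1 hP'
  have hκ' : ∀ x : P × Multiplicative (ZMod p), x ^ (p ^ κ) = 1 := by
    intro x
    rw [← hκ]
    exact pow_card_eq_one'
  obtain ⟨MB, hMB⟩ := hB κ (Nat.card (P × Multiplicative (ZMod p)))
  obtain ⟨MG, hMG⟩ := hG κ
  refine ⟨MB + MG, fun N c hN => ?_⟩
  intro K _ ζ hζ z hz D L η δ hη hδ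
  obtain ⟨zB, hzB⟩ := prm_pow hp hz (show MB ≤ MB + MG by omega)
  obtain ⟨zG, hzG⟩ := prm_pow hp hz (show MG ≤ MB + MG by omega)
  exact pl_ube hp hζ hP hN c (tri hp hζ D.toRD0 hP c (ubf hp hζ D.toRD0 κ hκ'
    (hMG K ζ hζ zG hzG D) (fun A => hMB K ζ hζ zB hzB D A) (clx hp c))) L η δ hη hδ

end H35.UE
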