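import Pool.Agent.H35.UE.Tri

/-!
# H35-UE-PUE: the upper bound for all homomorphisms, uniformly in `E` (MP_b39724_nt)
-/

set_option autoImplicit false

open scoped NumberField
open IsDedekindDomain Filter Topology
open scoped Classical

noncomputable section

namespace H35.UE

open H38.ML H63.MA H38.BB H38.BG H57.PC H57.BRA H77.WD H77.PC3 H77.S0T H77.FLD H77.PLF H35.CF H35.UB
  H35.AC

variable {K : IntermediateField ℚ QBar} [NumberField K] {p : ℕ} {ζ : K} {D : RD0 K p ζ}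
  {P : Type} [Group P] [Finite P] {N : ℕ}

private theorem log_ge {Y : ℝ} (hY : 3 ≤ Y) : 1 ≤ Real.log Y := by
  rw [Real.le_log_iff_exp_le (by linarith)]
  exact (Real.exp_one_lt_d9.le.trans (by norm_num)).trans hY

/-- the bound of `tri` -/
def TRI (D : RD0 K p ζ) (c : CL p N P) : Prop :=
  ∀ (A₁ δ : ℝ), 0 < δ → ∃ C Y₀ : ℝ, 1 ≤ C ∧ 3 ≤ Y₀ ∧
    ∀ (L₀ : LDs D QBar) (E : Finset (Pl K)) (Y : ℝ), Y₀ ≤ Y → nr E ≤ Real.log Y ^ A₁ →
      (∀ v ∈ E, v ∉ D.S0) →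
      (PU L₀ c E Y).Finite ∧ ((PU L₀ c E Y).ncard : ℝ) ≤
        C ^ (E.card + 1) * Y * Real.log Y ^ ((N : ℝ) - 1 + δ)

theorem pl_ube (hp : p.Prime) (hζ : IsPrimitiveRoot ζ p) (hP : IsPGroup p P) (hN : 1 ≤ N)
    (c : CL p N P) (hU : TRI D c) (L : LDs D QBar) (η δ : ℝ) (hη : 0 < η) (hδ : 0 < δ) :
    ∃ C : ℝ, 0 < C ∧ ∀ (E : Finset (Pl K)) (Y : ℝ), 1 ≤ Y →
      ∀ Rs : Finset (Gal(QBar/K) →* P), (∀ ψ ∈ Rs, ψ ∈ PU L c E Y) →
        (Rs.card : ℝ) ≤ C * nr E ^ η * Y * (1 + Real.log Y) ^ ((N : ℝ) - 1 + δ) := by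
  obtain ⟨C₃, A₃, hC₃, hA₃, htr⟩ := trv hp hζ hP L c
  set A₁ : ℝ := 2 * A₃ / η + 1 with hA₁
  have hA₁0 : 0 < A₁ := by positivity
  have hAA : A₃ / A₁ ≤ η / 2 := by
    rw [div_le_div_iff₀ hA₁0 (by norm_num), hA₁]
    have h1 : η * (2 * A₃ / η + 1) = 2 * A₃ + η := by field_simp
    rw [h1]
    linarith
  obtain ⟨C₁, Y₀, hC₁, hY₀3, hUb⟩ := hU A₁ δ hδ
  have hcP : 1 ≤ (Nat.card P : ℝ) := by exact_mod_cast Nat.card_pos
  have hη2 : 0 < η / 2 := by positivity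
  have hN1 : (1 : ℝ) ≤ N := by exact_mod_cast hN
  set e : ℝ := (N : ℝ) - 1 + δ with he
  have he0 : 0 ≤ e := by rw [he]; linarith
  obtain ⟨κ, hκ, hκE⟩ := cst_pow K hcP hη2
  obtain ⟨κ₁, hκ₁, hκ₁E⟩ := cst_pow K hC₁ hη
  -- the three cases
  set D₁ : ℝ := C₃ * κ * 2 ^ A₃ with hD₁
  set D₂ : ℝ := C₁ * κ₁ with hD₂
  set D₃ : ℝ := C₃ * κ * (1 + Real.log Y₀) ^ A₃ with hD₃
  have hlY₀ : 0 ≤ Real.log Y₀ := Real.log_nonneg (by linarith)
  have hD₁0 : 0 < D₁ := by positivity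
  have hD₂0 : 0 < D₂ := by positivity
  have hD₃0 : 0 < D₃ := by positivity
  refine ⟨D₁ + D₂ + D₃, by positivity, fun E Y hY Rs hRs => ?_⟩
  have hlY : 0 ≤ Real.log Y := Real.log_nonneg hY
  have hY0 : 0 < Y := by linarith
  set E' : Finset (Pl K) := E \ D.S0 with hE'
  have hnr : nr E' ≤ nr E := nr_mono Finset.sdiff_subset
  have hn1 : 1 ≤ nr E' := one_le_nr E'
  have hn0 : 0 < nr E' := by linarith
  obtain ⟨hfin, hbd⟩ := htr E' Y hY
  have hR : (Rs.card : ℝ) ≤ ((PU L c E' Y).ncard : ℝ) := by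
    have h1 : (Rs : Set (Gal(QBar/K) →* P)) ⊆ PU L c E' Y := by
      rw [hE', pu_sdiff]
      exact hRs
    have h2 := Set.ncard_le_ncard h1 hfin
    rw [Set.ncard_coe_finset] at h2
    exact_mod_cast h2
  have hpw : 1 ≤ (1 + Real.log Y) ^ e := Real.one_le_rpow (by linarith) he0
  -- it is enough to have the bound for `E'`
  have key : ∀ D' : ℝ, 0 ≤ D' → D' ≤ D₁ + D₂ + D₃ →
      (Rs.card : ℝ) ≤ D' * nr E' ^ η * Y * (1 + Real.log Y) ^ e →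
      (Rs.card : ℝ) ≤ (D₁ + D₂ + D₃) * nr E ^ η * Y * (1 + Real.log Y) ^ e := by
    intro D' hD' hD'' h
    refine h.trans ?_
    have h1 : nr E' ^ η ≤ nr E ^ η := Real.rpow_le_rpow hn0.le hnr hη.le
    have h2 : 0 ≤ nr E' ^ η := Real.rpow_nonneg hn0.le _
    have h3 : D' * nr E' ^ η ≤ (D₁ + D₂ + D₃) * nr E ^ η :=
      mul_le_mul hD'' h1 h2 (by positivity)
    exact mul_le_mul_of_nonneg_right (mul_le_mul_of_nonneg_right h3 hY0.le) (by linarith)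
  have hhalf : nr E' ^ (η / 2) * nr E' ^ (η / 2) = nr E' ^ η := by
    rw [← Real.rpow_add hn0, add_halves]
  have hhle : nr E' ^ (η / 2) ≤ nr E' ^ η :=
    Real.rpow_le_rpow_of_exponent_le hn1 (by linarith)
  have hh0 : 0 ≤ nr E' ^ (η / 2) := Real.rpow_nonneg hn0.le _
  have hh1 : 0 ≤ nr E' ^ η := Real.rpow_nonneg hn0.le _
  by_cases hYY : Y < Y₀
  · refine key D₃ hD₃0.le (by linarith) (hR.trans (hbd.trans ?_))
    have h1 : (1 + Real.log Y) ^ A₃ ≤ (1 + Real.log Y₀) ^ A₃ :=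
      Real.rpow_le_rpow (by linarith) (by linarith [Real.log_le_log hY0 hYY.le]) hA₃
    have h2 := (hκE E').trans (mul_le_mul_of_nonneg_left hhle (by linarith : (0 : ℝ) ≤ κ))
    calc C₃ * (Nat.card P : ℝ) ^ E'.card * Y * (1 + Real.log Y) ^ A₃
        ≤ C₃ * (κ * nr E' ^ η) * Y * (1 + Real.log Y₀) ^ A₃ := by gcongr
      _ = D₃ * nr E' ^ η * Y * 1 := by rw [hD₃]; ring
      _ ≤ D₃ * nr E' ^ η * Y * (1 + Real.log Y) ^ e := by gcongr
  have hYY' : Y₀ ≤ Y := not_lt.1 hYY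
  have hY3 : 3 ≤ Y := hY₀3.trans hYY'
  have hl1 := log_ge hY3
  have hl0 : 0 < Real.log Y := by linarith
  by_cases hbig : nr E' ≤ Real.log Y ^ A₁
  · have hE0 : ∀ v ∈ E', v ∉ D.S0 := fun v hv => (Finset.mem_sdiff.1 hv).2
    obtain ⟨hf1, hb1⟩ := hUb L E' Y hYY' hbig hE0
    refine key D₂ hD₂0.le (by linarith) (hR.trans (hb1.trans ?_))
    have h4 : C₁ ^ (E'.card + 1) ≤ C₁ * κ₁ * nr E' ^ η := by
      rw [pow_succ', mul_assoc]
      exact mul_le_mul_of_nonneg_left (hκ₁E E') (by linarith)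
    have h5 : Real.log Y ^ e ≤ (1 + Real.log Y) ^ e :=
      Real.rpow_le_rpow hl0.le (by linarith) he0
    exact mul_le_mul (mul_le_mul_of_nonneg_right h4 hY0.le) h5 (by positivity) (by positivity)
  · refine key D₁ hD₁0.le (by linarith) (hR.trans (hbd.trans ?_))
    have h1 : Real.log Y ^ A₃ ≤ nr E' ^ (η / 2) := by
      have h2 : Real.log Y ^ A₃ = (Real.log Y ^ A₁) ^ (A₃ / A₁) := by
        rw [← Real.rpow_mul hl0.le, mul_div_cancel₀ _ hA₁0.ne']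
      rw [h2]
      refine (Real.rpow_le_rpow (Real.rpow_nonneg hl0.le _) (not_le.1 hbig).le
        (by positivity)).trans ?_
      exact Real.rpow_le_rpow_of_exponent_le hn1 hAA
    have h2 : (1 + Real.log Y) ^ A₃ ≤ 2 ^ A₃ * nr E' ^ (η / 2) := by
      have h3 : (1 + Real.log Y) ^ A₃ ≤ (2 * Real.log Y) ^ A₃ :=
        Real.rpow_le_rpow (by linarith) (by linarith) hA₃
      rw [Real.mul_rpow (by norm_num) hl0.le] at h3
      exact h3.trans (mul_le_mul_of_nonneg_left h1 (by positivity))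
    calc C₃ * (Nat.card P : ℝ) ^ E'.card * Y * (1 + Real.log Y) ^ A₃
        ≤ C₃ * (κ * nr E' ^ (η / 2)) * Y * (2 ^ A₃ * nr E' ^ (η / 2)) := by
          have h4 := hκE E'
          gcongr
      _ = D₁ * (nr E' ^ (η / 2) * nr E' ^ (η / 2)) * Y * 1 := by rw [hD₁]; ring
      _ ≤ D₁ * nr E' ^ η * Y * (1 + Real.log Y) ^ e := by
          rw [hhalf]
          gcongr

end H35.UE
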