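import Pool.Agent.H35.AC.Pl

/-!
# H35-UE-TRI: the upper bound for ALL homomorphisms up to a power `ε` of the logarithm (MP_b39724_nt)

For every finite `p`-group `P` and every system `c` of classes of elements of order `p`: the bound `UBK` for the homomorphisms with a poor class, applied to
`P × ℤ/p` and the classes `(c.g i, 1)`, `(1, 1)` and to the homomorphisms `(φ, χ)`, `χ` one of finitely many characters (class `N` has no typed prime), gives
`#PU ≤ C |P|^#E Y (log Y)^(N - 1 + B ε)`.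
-/

set_option autoImplicit false

open scoped NumberField
open IsDedekindDomain Filter Topology
open scoped Classical

noncomputable section

namespace H35.UE

open H38.ML H63.MA H38.BB H38.BG H57.PC H57.BRA H77.WD H77.PC3 H77.S0T H77.FLD H77.PLF H35.CF H35.UB
  H35.AC

/-- the classes of `P × ℤ/p` -/
def clx {p N : ℕ} {P : Type} [Group P] (hp : p.Prime) (c : CL p N P) :
    CL p (N + 1) (P × Multiplicative (ZMod p)) where
  g := fun i => if h : (i : ℕ) < N then (c.g ⟨i, h⟩, 1) else (1, Multiplicative.ofAdd 1)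
  pow := by
    intro i
    split_ifs with h
    · rw [Prod.pow_mk, c.pow, one_pow]
      rfl
    · rw [Prod.pow_mk, one_pow, ← ofAdd_nsmul, nsmul_one, ZMod.natCast_self]
      rfl
  ne := by
    intro i
    split_ifs with h
    · intro h1
      exact c.ne _ (congrArg Prod.fst h1)
    · intro h1
      have h2 : Multiplicative.ofAdd (1 : ZMod p) = 1 := congrArg Prod.snd h1
      have h3 : (1 : ZMod p) = 0 := h2
      have : Fact p.Prime := ⟨hp⟩
      exact one_ne_zero h3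
  uni := by
    intro i j h
    have : Fact p.Prime := ⟨hp⟩
    have h10 : (1 : ZMod p) ≠ 0 := one_ne_zero
    obtain ⟨x, hx⟩ := isConj_iff.1 h
    have e1 := congrArg Prod.fst hx
    have e2 := congrArg Prod.snd hx
    have hi := i.2
    have hj := j.2
    split_ifs at e1 e2 with h1 h2 h2
    · have h3 := c.uni ⟨i, h1⟩ ⟨j, h2⟩ (isConj_iff.2 ⟨x.1, e1⟩)
      exact Fin.ext (Fin.mk.inj_iff.1 h3)
    · exfalso
      have h3 : x.2 * 1 * x.2⁻¹ = Multiplicative.ofAdd (1 : ZMod p) := e2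
      rw [mul_one, mul_inv_cancel] at h3
      exact h10 (show (1 : ZMod p) = 0 from h3.symm)
    · exfalso
      have h3 : x.2 * Multiplicative.ofAdd (1 : ZMod p) * x.2⁻¹ = 1 := e2
      rw [mul_comm x.2, mul_inv_cancel_right] at h3
      exact h10 (show (1 : ZMod p) = 0 from h3)
    · apply Fin.ext
      omega

theorem clx_lt {p N : ℕ} {P : Type} [Group P] (hp : p.Prime) (c : CL p N P) (i : Fin N) :
    (clx hp c).g i.castSucc = (c.g i, 1) := by
  change (if h : ((i.castSucc : Fin (N + 1)) : ℕ) < N then _ else _) = _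
  rw [dif_pos (by simp)]
  rfl

theorem clx_last {p N : ℕ} {P : Type} [Group P] (hp : p.Prime) (c : CL p N P) :
    (clx hp c).g (Fin.last N) = (1, Multiplicative.ofAdd 1) := by
  change (if h : ((Fin.last N : Fin (N + 1)) : ℕ) < N then _ else _) = _
  rw [dif_neg (by simp)]

/-- `(φ, χ)` is onto if `χ` does not factor through `φ` -/
theorem surj_prod {p : ℕ} (hp : p.Prime) {Γ P : Type} [Group Γ] [Group P] (φ : Γ →* P)
    (hφ : Function.Surjective φ) (χ : Γ →* Multiplicative (ZMod p))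
    (h : ∀ β : P →* Multiplicative (ZMod p), χ ≠ β.comp φ) : Function.Surjective (φ.prod χ) := by
  have hF : Fact p.Prime := ⟨hp⟩
  have h1 : ¬ φ.ker ≤ χ.ker := by
    intro h1
    exact h (MonoidHom.liftOfSurjective φ hφ ⟨χ, h1⟩)
      (MonoidHom.liftOfRightInverse_comp φ _ _ ⟨χ, h1⟩).symm
  rw [SetLike.not_le_iff_exists] at h1
  obtain ⟨σ, hσ, hσ'⟩ := h1
  rw [MonoidHom.mem_ker] at hσ hσ'
  rintro ⟨x, y⟩
  obtain ⟨τ, rfl⟩ := hφ x
  have ha : Multiplicative.toAdd (χ σ) ≠ 0 := fun h0 => hσ' h0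
  obtain ⟨k, hk⟩ : ∃ k : ZMod p, k * Multiplicative.toAdd (χ σ) =
      Multiplicative.toAdd y - Multiplicative.toAdd (χ τ) :=
    ⟨(Multiplicative.toAdd y - Multiplicative.toAdd (χ τ)) * (Multiplicative.toAdd (χ σ))⁻¹, by
      rw [mul_assoc, inv_mul_cancel₀ ha, mul_one]⟩
  refine ⟨τ * σ ^ k.val, ?_⟩
  rw [MonoidHom.prod_apply, map_mul, map_pow, hσ, one_pow, mul_one, map_mul, map_pow]
  refine Prod.ext rfl ?_
  change Multiplicative.toAdd (χ τ) + k.val • Multiplicative.toAdd (χ σ) = Multiplicative.toAdd y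
  rw [nsmul_eq_mul, ZMod.natCast_zmod_val, hk]
  ring

variable {K : Type} [Field K] [NumberField K] {Ω : Type} [Field Ω] [Algebra K Ω] [IsAlgClosure K Ω]
  {p : ℕ} {ζ : K} {P : Type} [Group P] {N : ℕ}

omit [IsAlgClosure K Ω] in
theorem ft_prod {A B : Type} [Group A] [Group B] {φ : Gal(Ω/K) →* A} {χ : Gal(Ω/K) →* B}
    (hφ : FT φ) (hχ : FT χ) : FT (φ.prod χ) := by
  obtain ⟨E, hE, hE2⟩ := hφ
  obtain ⟨E', hE', hE2'⟩ := hχ
  refine ⟨E ⊔ E', IntermediateField.finiteDimensional_sup _ _, fun u hu => ?_⟩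
  have h1 : φ u = 1 := MonoidHom.mem_ker.1
    (hE2 (IntermediateField.fixingSubgroup_antitone le_sup_left hu))
  have h2 : χ u = 1 := MonoidHom.mem_ker.1
    (hE2' (IntermediateField.fixingSubgroup_antitone le_sup_right hu))
  rw [MonoidHom.mem_ker, MonoidHom.prod_apply, h1, h2]
  rfl

omit [Field Ω] [Algebra K Ω] [IsAlgClosure K Ω] in
theorem exists_pls (S : Finset (Pl K)) (n : ℕ) : ∃ T : Finset (Pl K), T.card = n ∧ ∀ v ∈ T, v ∉ S := by
  have hinf : {v : Pl K | v ∉ S}.Infinite := by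
    intro hfin
    obtain ⟨v, hv⟩ := lin_infinite (S ∪ hfin.toFinset)
    rw [Finset.mem_union, not_or, Set.Finite.mem_toFinset] at hv
    exact hv.2 hv.1
  obtain ⟨T, hT, hc⟩ := hinf.exists_subset_card_eq n
  exact ⟨T, hc, fun v hv => hT hv⟩

/-- the bound for all homomorphisms -/
theorem tri [Finite P] (hp : p.Prime) (hζ : IsPrimitiveRoot ζ p) (D : RD0 K p ζ) (hP : IsPGroup p P)
    (c : CL p N P)
    (hU : ∃ M₀ : ℕ, ∃ B : ℝ, 0 ≤ B ∧ ∀ (M : ℕ) (A₁ ε : ℝ), M₀ ≤ M → 0 < ε → ε < 1 →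
      ∃ C Y₀ : ℝ, 1 ≤ C ∧ 3 ≤ Y₀ ∧
      ∀ (L₀ : LDs D Ω) (E : Finset (Pl K)) (Y : ℝ), Y₀ ≤ Y → nr E ≤ Real.log Y ^ A₁ →
        (∀ v ∈ E, v ∉ D.S0) →
        {φ | φ ∈ PU L₀ (clx hp c) E Y ∧ ∃ i, tyn L₀ (clx hp c) E (T0 ε Y) φ i < M}.Finite ∧
        ({φ | φ ∈ PU L₀ (clx hp c) E Y ∧ ∃ i, tyn L₀ (clx hp c) E (T0 ε Y) φ i < M}.ncard : ℝ) ≤
          C * (Nat.card (P × Multiplicative (ZMod p)) : ℝ) ^ E.card * Y *
            Real.log Y ^ (((N + 1 : ℕ) : ℝ) - 2 + B * ε)) :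
    ∀ (A₁ δ : ℝ), 0 < δ → ∃ C Y₀ : ℝ, 1 ≤ C ∧ 3 ≤ Y₀ ∧
      ∀ (L₀ : LDs D Ω) (E : Finset (Pl K)) (Y : ℝ), Y₀ ≤ Y → nr E ≤ Real.log Y ^ A₁ →
        (∀ v ∈ E, v ∉ D.S0) →
        (PU L₀ c E Y).Finite ∧ ((PU L₀ c E Y).ncard : ℝ) ≤
          C ^ (E.card + 1) * Y * Real.log Y ^ ((N : ℝ) - 1 + δ) := by
  intro A₁ δ hδ
  obtain ⟨M₀, B, hB, hU⟩ := hU
  have hpf : Fact p.Prime := ⟨hp⟩
  have hp0 : NeZero p := ⟨hp.ne_zero⟩
  have : Finite (P →* Multiplicative (ZMod p)) := Finite.of_injective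
    (fun f : P →* Multiplicative (ZMod p) => (f : P → Multiplicative (ZMod p))) DFunLike.coe_injective
  obtain ⟨E₀, hE₀, hE₀'⟩ := exists_pls D.S0 (Nat.card (P →* Multiplicative (ZMod p)) + 1)
  obtain ⟨ε, hε, hε1, hεδ⟩ : ∃ ε : ℝ, 0 < ε ∧ ε < 1 ∧ B * ε ≤ δ := by
    refine ⟨min (1 / 2) (δ / (B + 1)), lt_min (by norm_num) (by positivity),
      (min_le_left _ _).trans_lt (by norm_num), ?_⟩
    calc B * min (1 / 2) (δ / (B + 1)) ≤ B * (δ / (B + 1)) :=
          mul_le_mul_of_nonneg_left (min_le_right _ _) hB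
      _ = δ * (B / (B + 1)) := by ring
      _ ≤ δ * 1 := mul_le_mul_of_nonneg_left ((div_le_one (by positivity)).2 (by linarith)) hδ.le
      _ = δ := mul_one _
  obtain ⟨C, Y₀, hC, hY₀, hb⟩ := hU (M₀ + 1) (A₁ + 1) ε (by omega) hε hε1
  set q : ℝ := (Nat.card (P × Multiplicative (ZMod p)) : ℝ) with hq
  have hq1 : 1 ≤ q := by
    rw [hq]
    exact_mod_cast Nat.card_pos
  have hnE₀ : 1 ≤ nr E₀ := one_le_nr E₀
  refine ⟨C * q ^ (E₀.card + 1), max Y₀ (Real.exp (nr E₀)), ?_, hY₀.trans (le_max_left _ _),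
    fun L₀ E Y hY hE hES => ?_⟩
  · exact one_le_mul_of_one_le_of_one_le hC (one_le_pow₀ hq1)
  have hYY : Y₀ ≤ Y := (le_max_left _ _).trans hY
  have hY3 : 3 ≤ Y := hY₀.trans hYY
  have hlog : nr E₀ ≤ Real.log Y := by
    rw [Real.le_log_iff_exp_le (by linarith)]
    exact (le_max_right _ _).trans hY
  have hlog1 : 1 ≤ Real.log Y := hnE₀.trans hlog
  have hlog0 : 0 < Real.log Y := by linarith
  -- the enlarged exceptional set
  have hnr : nr (E ∪ E₀) ≤ Real.log Y ^ (A₁ + 1) := by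
    have h1 : nr (E ∪ E₀) ≤ nr E * nr E₀ := by
      have h2 : nr (E ∪ E₀) * nr (E ∩ E₀) = nr E * nr E₀ := Finset.prod_union_inter
      rw [← h2]
      exact le_mul_of_one_le_right ((zero_le_one).trans (one_le_nr _)) (one_le_nr _)
    refine h1.trans ?_
    rw [Real.rpow_add hlog0, Real.rpow_one]
    exact mul_le_mul hE hlog (by linarith) (Real.rpow_nonneg hlog0.le _)
  have hS : ∀ v ∈ E ∪ E₀, v ∉ D.S0 := by
    intro v hv
    rcases Finset.mem_union.1 hv with h | h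
    · exact hES v h
    · exact hE₀' v h
  obtain ⟨hfin, hcard⟩ := hb L₀ (E ∪ E₀) Y hYY hnr hS
  -- the characters
  have hpi : ∀ v ∈ E₀, ∀ w, w ∉ D.S0 →
      (v = w → kc p ζ Ω (D.pi v) (L₀.t w) = Multiplicative.ofAdd 1) ∧
      (v ≠ w → kc p ζ Ω (D.pi v) (L₀.t w) = 1) := by
    intro v hv w hw
    obtain ⟨h1, h2⟩ := kk_pi hp hζ D L₀ v w (hE₀' v hv) hw
    exact ⟨fun h => congrArg Multiplicative.ofAdd (h1 h), fun h => congrArg Multiplicative.ofAdd (h2 h)⟩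
  have hch : ∀ φ : Gal(Ω/K) →* P, Function.Surjective φ → ∃ v ∈ E₀,
      ∀ β : P →* Multiplicative (ZMod p), kc p ζ Ω (D.pi v) ≠ β.comp φ := by
    intro φ hφ
    by_contra hcon
    push Not at hcon
    choose! β hβ using hcon
    have hinj : Set.InjOn β E₀ := by
      intro v hv w hw hvw
      by_contra hne
      have h1 := hβ v hv
      have h2 := hβ w hw
      rw [hvw, ← h2] at h1
      have h3 := (hpi v hv v (hE₀' v hv)).1 rfl
      rw [h1, (hpi w hw v (hE₀' v hv)).2 (fun h => hne h.symm)] at h3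
      exact one_ne_zero (α := ZMod p) (show (1 : ZMod p) = 0 from h3.symm)
    have hft : Fintype (P →* Multiplicative (ZMod p)) := Fintype.ofFinite _
    have h1 : E₀.card ≤ (Finset.univ : Finset (P →* Multiplicative (ZMod p))).card :=
      Finset.card_le_card_of_injOn β (fun _ _ => Finset.mem_univ _) hinj
    rw [Finset.card_univ, ← Nat.card_eq_fintype_card] at h1
    omega
  have hft : ∀ a : Kˣ, FT (kc p ζ Ω a) := fun a => (kc_is hp hζ a).1
  obtain ⟨ch, hch1, hch2⟩ : ∃ ch : (Gal(Ω/K) →* P) → Pl K,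
      (∀ φ : Gal(Ω/K) →* P, Function.Surjective φ → ch φ ∈ E₀) ∧
      ∀ φ : Gal(Ω/K) →* P, Function.Surjective φ →
        ∀ β : P →* Multiplicative (ZMod p), kc p ζ Ω (D.pi (ch φ)) ≠ β.comp φ := by
    obtain ⟨v₀, -⟩ := lin_infinite D.S0
    refine ⟨fun φ => if h : Function.Surjective φ then (hch φ h).choose else v₀, ?_, ?_⟩
    · intro φ h
      simp only [dif_pos h]
      exact (hch φ h).choose_spec.1
    · intro φ h
      simp only [dif_pos h]
      exact (hch φ h).choose_spec.2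
  have hmem : ∀ φ ∈ PU L₀ c E Y, φ.prod (kc p ζ Ω (D.pi (ch φ))) ∈
      {φ | φ ∈ PU L₀ (clx hp c) (E ∪ E₀) Y ∧
        ∃ i, tyn L₀ (clx hp c) (E ∪ E₀) (T0 ε Y) φ i < M₀ + 1} := by
    intro φ hφ
    obtain ⟨h1, h2, h3, h4⟩ := hφ
    have hch1' := hch1 φ h2
    have hur : ∀ v, v ∉ D.S0 → v ∉ E₀ → ∀ τ ∈ inr L₀ v, kc p ζ Ω (D.pi (ch φ)) τ = 1 := by
      intro v hv hv0
      refine (H48.MF.ing_inr hp hζ L₀ hv (kc p ζ Ω (D.pi (ch φ))) (hft _) fun τ _ => ⟨1, ?_⟩).2.2 ?_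
      · rw [pow_one]
        change p • Multiplicative.toAdd (kc p ζ Ω (D.pi (ch φ)) τ) = 0
        rw [nsmul_eq_mul, ZMod.natCast_self, zero_mul]
      · exact (hpi _ hch1' v hv).2 fun h => hv0 (h ▸ hch1')
    refine ⟨⟨ft_prod h1 (hft _), surj_prod hp φ h2 _ (hch2 φ h2), fun v hv hvE => ?_, fun T hT => ?_⟩,
      Fin.last N, ?_⟩
    · rw [Finset.mem_union, not_or] at hvE
      have hk := hur v hv hvE.2
      rcases h3 v hv hvE.1 with h5 | ⟨i, hi⟩
      · left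
        intro τ hτ
        rw [MonoidHom.prod_apply, h5 τ hτ, hk τ hτ]
        rfl
      · right
        refine ⟨i.castSucc, hi.1, ?_, fun τ hτ => ?_⟩
        · rw [clx_lt, MonoidHom.prod_apply, hk _ (H63.BU.uinr_t L₀ v)]
          obtain ⟨x, hx⟩ := isConj_iff.1 hi.2.1
          refine isConj_iff.2 ⟨(x, 1), ?_⟩
          refine Prod.ext hx ?_
          change (1 : Multiplicative (ZMod p)) * 1 * 1⁻¹ = 1
          simp
        · rw [MonoidHom.prod_apply, hk τ hτ, Prod.pow_mk, hi.2.2 τ hτ, one_pow]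
          rfl
    · refine h4 T fun v hv => ?_
      obtain ⟨h5, h6, h7⟩ := hT v hv
      rw [Finset.mem_union, not_or] at h6
      refine ⟨h5, h6.1, fun h8 => h7 fun τ hτ => ?_⟩
      rw [MonoidHom.prod_apply, h8 τ hτ, hur v h5 h6.2 τ hτ]
      rfl
    · have h5 : {v : Pl K | v ∉ E ∪ E₀ ∧ T0 ε Y < (nm v : ℝ) ∧ TyC (clx hp c) L₀
          (φ.prod (kc p ζ Ω (D.pi (ch φ)))) (Fin.last N) v} = ∅ := by
        rw [Set.eq_empty_iff_forall_notMem]
        rintro v ⟨h6, -, h7⟩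
        rw [Finset.mem_union, not_or] at h6
        have h8 := h7.2.1
        rw [clx_last, MonoidHom.prod_apply, hur v h7.1.1 h6.2 _ (H63.BU.uinr_t L₀ v)] at h8
        obtain ⟨x, hx⟩ := isConj_iff.1 h8
        have h9 : x.2 * 1 * x.2⁻¹ = Multiplicative.ofAdd (1 : ZMod p) := congrArg Prod.snd hx
        rw [mul_one, mul_inv_cancel] at h9
        exact one_ne_zero (α := ZMod p) (show (1 : ZMod p) = 0 from h9.symm)
      unfold tyn
      rw [h5, Set.ncard_empty]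
      exact Nat.succ_pos _
  have hinj : Set.InjOn (fun φ : Gal(Ω/K) →* P => φ.prod (kc p ζ Ω (D.pi (ch φ)))) (PU L₀ c E Y) := by
    intro φ _ φ' _ h
    have h1 := congrArg (fun ψ : Gal(Ω/K) →* P × Multiplicative (ZMod p) => (MonoidHom.fst _ _).comp ψ) h
    simpa using h1
  have hmaps : Set.MapsTo (fun φ : Gal(Ω/K) →* P => φ.prod (kc p ζ Ω (D.pi (ch φ)))) (PU L₀ c E Y) _ :=
    fun φ hφ => hmem φ hφ
  refine ⟨Set.Finite.of_injOn hmaps hinj hfin, ?_⟩
  have hle : ((PU L₀ c E Y).ncard : ℝ) ≤ ({φ | φ ∈ PU L₀ (clx hp c) (E ∪ E₀) Y ∧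
      ∃ i, tyn L₀ (clx hp c) (E ∪ E₀) (T0 ε Y) φ i < M₀ + 1}.ncard : ℝ) := by
    exact_mod_cast Set.ncard_le_ncard_of_injOn _ hmaps hinj hfin
  refine hle.trans (hcard.trans ?_)
  have hexp : Real.log Y ^ (((N + 1 : ℕ) : ℝ) - 2 + B * ε) ≤ Real.log Y ^ ((N : ℝ) - 1 + δ) := by
    refine Real.rpow_le_rpow_of_exponent_le hlog1 ?_
    push_cast
    linarith
  have hY0 : 0 ≤ Y := by linarith
  have hpw : C * q ^ (E ∪ E₀).card ≤ (C * q ^ (E₀.card + 1)) ^ (E.card + 1) := by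
    have h1 : (E ∪ E₀).card ≤ (E₀.card + 1) * (E.card + 1) := by
      refine (Finset.card_union_le _ _).trans ?_
      nlinarith [Nat.zero_le E.card, Nat.zero_le E₀.card]
    calc C * q ^ (E ∪ E₀).card ≤ C ^ (E.card + 1) * q ^ ((E₀.card + 1) * (E.card + 1)) := by
          refine mul_le_mul ?_ (pow_le_pow_right₀ hq1 h1) (by positivity) (by positivity)
          calc C = C ^ 1 := (pow_one _).symm
            _ ≤ _ := pow_le_pow_right₀ hC (by omega)
      _ = _ := by rw [mul_pow, ← pow_mul]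
  exact mul_le_mul (mul_le_mul_of_nonneg_right hpw hY0) hexp (Real.rpow_nonneg hlog0.le _)
    (by positivity)

end H35.UE
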